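import Pool.Agent.H34.RT.Fam

/-!
# Local classification of rotors

`P = {x | ∀ j, ⟪u j, x⟫ ≤ b j}` is given by unit normals `u j` (`j` in any index type) of Euclidean `n`-space, `n ≥ 3`, all orthogonal to some vector
`v ≠ 0`, not all parallel to each other, and indecomposable; an example is the triangular prism `T × ℝ` in space. The compact set `K` is only supposed
to fit in `P`, touching all the hyperplanes `⟪u j, x⟫ = b j`, in the orientations `A` of an arbitrarily small connected open set `V` of rotations.
This happens if and only if `K` turns about a fixed point: there are `c`, `z` and `r j ≥ 0` with `⟪u j, z⟫ = b j - r j` such that for all `A` in `V`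
the point `c + r j Aᵀ u j` is in `K` and is the only point of `K` where `⟪x - c, Aᵀ u j⟫` attains its maximum `r j`; so with `c` placed at `z`, the set
`A K` touches the hyperplane `j` only at the point `z + r j u j`, which does not depend on `A`. For `V = SO(n)` this says that all the `r j` are equal
and the closed convex hull of `K` is the ball with the centre `c` and this radius.
-/

set_option autoImplicit false

open scoped RealInnerProductSpace

namespace Pool.Agent.Results.MP_c2e62a_gt.LocalClassification

/-- Euclidean `n`-space -/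
abbrev Space (n : ℕ) : Type := EuclideanSpace ℝ (Fin n)

/-- the point `A x + t` -/
noncomputable def move {n : ℕ} (A : Matrix (Fin n) (Fin n) ℝ) (t x : Space n) : Space n :=
  WithLp.toLp 2 (A.mulVec x.ofLp) + t

/-- `K` fits in the orientation `A`: some translate of `A K` lies in `{x | ∀ j, ⟪u j, x⟫ ≤ b j}` and meets all the
hyperplanes `⟪u j, x⟫ = b j` -/
def Fits {n : ℕ} {J : Type} (u : J → Space n) (b : J → ℝ) (K : Set (Space n)) (A : Matrix (Fin n) (Fin n) ℝ) : Prop :=
  ∃ t : Space n, ∀ j, (∀ x ∈ K, ⟪u j, move A t x⟫ ≤ b j) ∧ ∃ x ∈ K, ⟪u j, move A t x⟫ = b j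

/-- the family of normals is indecomposable: whenever the indices are divided into two nonempty parts, the spans of the
two parts have a nonzero common vector -/
def Indecomposable {n : ℕ} {J : Type} (u : J → Space n) : Prop :=
  ∀ S : Set J, S.Nonempty → Sᶜ.Nonempty →
    ∃ w : Space n, w ≠ 0 ∧ w ∈ Submodule.span ℝ (u '' S) ∧ w ∈ Submodule.span ℝ (u '' Sᶜ)

/-- Local classification of rotors, for a connected open set of orientations. -/
theorem result (n : ℕ) (hn : 3 ≤ n) (J : Type) (u : J → Space n) (b : J → ℝ) (K : Set (Space n))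
    (V : Set (Matrix.specialOrthogonalGroup (Fin n) ℝ)) (hu : ∀ j, ‖u j‖ = 1)
    (hv : ∃ v : Space n, v ≠ 0 ∧ ∀ j, ⟪u j, v⟫ = 0) (hpar : ∃ i j, u i ≠ u j ∧ u i ≠ -u j)
    (hind : Indecomposable u) (hK : IsCompact K) (hne : K.Nonempty) (hV : IsOpen V) (hVc : IsConnected V) :
    (∀ A ∈ V, Fits u b K A.1) ↔
      ∃ (c z : Space n) (r : J → ℝ), (∀ j, 0 ≤ r j ∧ ⟪u j, z⟫ = b j - r j) ∧ ∀ A ∈ V, ∀ j,
        c + r j • move A.1.transpose 0 (u j) ∈ K ∧
        ∀ x ∈ K, x ≠ c + r j • move A.1.transpose 0 (u j) → ⟪x - c, move A.1.transpose 0 (u j)⟫ < r j := by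
  obtain ⟨v, hv0, huv⟩ := hv
  exact Pool.Agent.H34.RT.local_classification hn hu hv0 huv hpar hind hK hne hV hVc

end Pool.Agent.Results.MP_c2e62a_gt.LocalClassification
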