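import Pool.Agent.H34.RT.Cls
import Pool.Agent.H34.RT.Prism

/-!
# Classification of rotors in polyhedral sets which contain a line

The first part of `result` answers the question of Goldberg, in his words: the rotors in the regular triangular prism `T × ℝ` are the balls whose
radius is the inradius of `T`. The second part determines the rotors in all polyhedral sets which contain a line:
`P = {x | ∀ j, ⟪u j, x⟫ ≤ b j}` is given by distinct unit normals `u j` (`j` in any index type) of Euclidean `n`-space, `n ≥ 3`, all orthogonal to some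
vector `v ≠ 0` (so `P` contains a line if it is not empty; `T × ℝ^(n-2)` for a triangle or polygon `T` is an example). A convex body
`K` is a rotor in `P` if for every rotation matrix `A` some translate of `A K` lies in `P` and meets all the hyperplanes `⟪u j, x⟫ = b j`.
-/

set_option autoImplicit false

open scoped RealInnerProductSpace

namespace Pool.Agent.Results.MP_c2e62a_gt.RotorClassification

/-- Euclidean `n`-space -/
abbrev Space (n : ℕ) : Type := EuclideanSpace ℝ (Fin n)

/-- the point `A x + t` -/
noncomputable def move {n : ℕ} (A : Matrix (Fin n) (Fin n) ℝ) (t x : Space n) : Space n :=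
  WithLp.toLp 2 (A.mulVec x.ofLp) + t

/-- `K` fits in the orientation `A`: some translate of `A K` lies in `{x | ∀ j, ⟪u j, x⟫ ≤ b j}` and meets all the
hyperplanes `⟪u j, x⟫ = b j` -/
def Fits {n : ℕ} {J : Type} (u : J → Space n) (b : J → ℝ) (K : Set (Space n)) (A : Matrix (Fin n) (Fin n) ℝ) : Prop :=
  ∃ t : Space n, ∀ j, (∀ x ∈ K, ⟪u j, move A t x⟫ ≤ b j) ∧ ∃ x ∈ K, ⟪u j, move A t x⟫ = b j

/-- the normal `u j` is a linear combination of normals which are not parallel to it -/
def Dep {n : ℕ} {J : Type} (u : J → Space n) (j : J) : Prop :=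
  u j ∈ Submodule.span ℝ {w | (∃ i, u i = w) ∧ w ≠ u j ∧ w ≠ -u j}

/-- the width of `K` in the direction `x` -/
noncomputable def width {n : ℕ} (K : Set (Space n)) (x : Space n) : ℝ :=
  sSup ((fun y => ⟪y, x⟫) '' K) - sInf ((fun y => ⟪y, x⟫) '' K)

/-- The infinite prism `T × ℝ`, where `T` is the triangle with the vertices `p 0`, `p 1`, `p 2` in the plane `z = 0`. -/
def prism (p : Fin 3 → Space 3) : Set (Space 3) :=
  {x | ∃ y ∈ convexHull ℝ (Set.range p), x 0 = y 0 ∧ x 1 = y 1}

/-- The face `e × ℝ` of the prism, where `e` is the edge of `T` opposite to the vertex `p i` (indices modulo 3). -/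
def face (p : Fin 3 → Space 3) (i : Fin 3) : Set (Space 3) :=
  {x | ∃ y ∈ segment ℝ (p (i + 1)) (p (i + 2)), x 0 = y 0 ∧ x 1 = y 1}

/-- The rotors in the regular triangular prism are the balls (Goldberg's question), and the classification of rotors in all
polyhedral sets which contain a line. -/
theorem result :
    (∀ (p : Fin 3 → Space 3) (a : ℝ) (K : Set (Space 3)), (∀ i, p i 2 = 0) → 0 < a →
      (∀ i j, i ≠ j → dist (p i) (p j) = a) → Convex ℝ K → IsCompact K → (interior K).Nonempty →
      ((∀ A ∈ Matrix.specialOrthogonalGroup (Fin 3) ℝ, ∃ t : Space 3,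
          (∀ x ∈ K, move A t x ∈ prism p) ∧ ∀ i : Fin 3, ∃ x ∈ K, move A t x ∈ face p i) ↔
        ∃ c : Space 3, K = Metric.closedBall c (a / (2 * Real.sqrt 3)))) ∧
    (∀ (n : ℕ) (J : Type) (u : J → Space n) (b : J → ℝ) (K : Set (Space n)), 3 ≤ n → Function.Injective u →
      (∀ j, ‖u j‖ = 1) → (∃ v : Space n, v ≠ 0 ∧ ∀ j, ⟪u j, v⟫ = 0) →
      Convex ℝ K → IsCompact K → (interior K).Nonempty →
      ((∀ A ∈ Matrix.specialOrthogonalGroup (Fin n) ℝ, Fits u b K A) ↔
        (∃ (c z : Space n) (r : ℝ), 0 < r ∧ K = Metric.closedBall c r ∧ ∀ j, ⟪u j, z⟫ = b j - r) ∨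
        ((∀ j, ¬ Dep u j) ∧ ∀ j k, u j = -u k → ∀ x : Space n, ‖x‖ = 1 → width K x = b j + b k))) := by
  refine ⟨?_, ?_⟩
  · intro p a K hz ha heq hconv hK hint
    exact Pool.Agent.H34.RT.Prism.prism_rotor p hz a ha heq K hconv hK hint
  · intro n J u b K hn hinj hu hv hconv hK hint
    exact Pool.Agent.H34.RT.classification hn hu hinj hv hconv hK hint

end Pool.Agent.Results.MP_c2e62a_gt.RotorClassification
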